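import Pool.Agent.Lib.helper5.SubPara

open Set Topology

namespace Pool.Agent.Results.MP_158c61_gt.Subpara

/-- a discrete family of sets: each point has a neighbourhood meeting at most one member -/
def DiscreteFam {Z : Type} [TopologicalSpace Z] (𝓕 : Set (Set Z)) : Prop :=
  ∀ z, ∃ U ∈ 𝓝 z, {F ∈ 𝓕 | (F ∩ U).Nonempty}.Subsingleton

/-- every open cover has a sigma-discrete closed refinement -/
def Subparacompact (Z : Type) [TopologicalSpace Z] : Prop :=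
  ∀ 𝓤 : Set (Set Z), (∀ U ∈ 𝓤, IsOpen U) → ⋃₀ 𝓤 = univ →
    ∃ 𝓕 : ℕ → Set (Set Z), (∀ n, DiscreteFam (𝓕 n)) ∧
      (∀ n, ∀ F ∈ 𝓕 n, IsClosed F ∧ ∃ U ∈ 𝓤, F ⊆ U) ∧ ⋃ n, ⋃₀ 𝓕 n = univ

/-- a continuous image of a Cantor cube -/
def Dyadic (X : Type) [TopologicalSpace X] : Prop :=
  ∃ (κ : Type) (g : (κ → Bool) → X), Continuous g ∧ Function.Surjective g

theorem result : ∃ (X : Type) (_ : TopologicalSpace X), CompactSpace X ∧ T2Space X ∧ Dyadic X ∧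
    ¬ TopologicalSpace.MetrizableSpace X ∧ Subparacompact {f : X → ℝ // Continuous f} ∧
    ∀ S : Set {f : X → ℝ // Continuous f}, Subparacompact S := by
  have key : ∀ (Z : Type) [TopologicalSpace Z] (j : Z → H5C.Cp H5SP.X), IsInducing j →
      Subparacompact Z := by
    intro Z _ j hj 𝓤 h1 h2
    obtain ⟨π, hπ⟩ := exists_surjective_nat H5SP.Par
    refine ⟨fun n => {F | (∃ t, F = j ⁻¹' H5SP.N (π n) t) ∧ ∃ U ∈ 𝓤, F ⊆ U}, fun n z => ?_,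
      fun n F ⟨⟨t, e⟩, h⟩ => ⟨e ▸ (H5SP.N_closed _ t).preimage hj.continuous, h⟩,
      eq_univ_of_forall fun z => ?_⟩
    · obtain ⟨U, hU, h⟩ := H5SP.N_disc (π n) (j z)
      refine ⟨j ⁻¹' U, hj.continuous.continuousAt hU, ?_⟩
      rintro _ ⟨⟨⟨s, rfl⟩, -⟩, x, hx⟩ _ ⟨⟨⟨t, rfl⟩, -⟩, y, hy⟩
      rw [h ⟨j x, hx⟩ ⟨j y, hy⟩]
    · obtain ⟨U, hU, hz⟩ := mem_sUnion.1 (h2 ▸ mem_univ z)
      obtain ⟨V, hV, rfl⟩ := hj.isOpen_iff.1 (h1 U hU)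
      obtain ⟨p, t, h3, h4⟩ := H5SP.net hV hz
      obtain ⟨n, rfl⟩ := hπ p
      exact mem_iUnion.2 ⟨n, _, ⟨⟨t, rfl⟩, _, hU, preimage_mono h4⟩, h3⟩
  exact ⟨H5SP.X, inferInstance, inferInstance, inferInstance,
    ⟨H5SP.T, id, continuous_id, Function.surjective_id⟩, H5SP.not_metr, key _ id IsInducing.id,
    fun S => key _ _ IsInducing.subtypeVal⟩

end Pool.Agent.Results.MP_158c61_gt.Subpara
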